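import Pool.Agent.Helper53.FM.St.Stubs

/-!
# Project FM: all stages of the recursion (C2, after Helper87/FB/Pieces.lean)
-/

set_option autoImplicit false

namespace Pool.Agent.Helper52.FM

open Finset Filter
open Pool.Agent.Helper53.WR
open Pool.Agent.Helper48.FB (win crossF Cs WinLe Fs Dk LR zR dens)
open Pool.Agent.Helper53.FM
open Pool.Agent.Helper53.FM.St (mi_zero filler_stage3 mtower_world mi_step)

/-- FM-C2 (all stages; uses A5, A9, B8, C1). -/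
theorem mtower_pieces {a u e κ w c : ℕ → ℕ} (h : MTow a u e κ w c) (f g : ℕ → ℕ → ℕ)
    (T : ℕ → Finset ℕ) (T' B : ℕ → ℕ → Finset ℕ)
    (hT : ∀ k, MTop (laT u k) (Fs u k) (w k) (c k) (f k) (g k) (T k) (T' k) (B k)) :
    ∃ (q : ℕ → ℕ) (S A R : ℕ → Finset ℕ) (A' : ℕ → ℕ → Finset ℕ),
      (∀ i, (q i).Prime ∧ 2 ^ (a i) < q i ∧ q i ≤ 2 ^ (a i + 1)) ∧
      (∀ k, S (k + 1) = S k ∪ A k ∪ R k) ∧ (∀ k, MI a u e κ w c q k (S k)) ∧
      (∀ k, MW a u e κ w c (f k) (g k) q (B k) k (S k) (A k) (A' k)) ∧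
      (∀ k, MR a u e κ q k (S k) (A k) (R k)) := by
  classical
  obtain ⟨q, hq⟩ := texists_primes a
  obtain ⟨O0, hO0⟩ := mi_zero h q hq
  have hex : ∀ (k : ℕ) (O : Finset ℕ), ∃ P : Finset ℕ × (ℕ → Finset ℕ) × Finset ℕ,
      MI a u e κ w c q k O → MW a u e κ w c (f k) (g k) q (B k) k O P.1 P.2.1 ∧
        MR a u e κ q k O P.1 P.2.2 := by
    intro k O
    by_cases hO : MI a u e κ w c q k O
    · obtain ⟨A, A', hA⟩ :=
        mtower_world h (f k) (g k) k q hq (T k) O (T' k) (B k) (hT k) hO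
      obtain ⟨R, hR⟩ := filler_stage3 h k q hq O A hO.bd hO.rep (fun x hx => (hA.rng x hx).2)
        hA.mid hA.wn
      exact ⟨(A, A', R), fun _ => ⟨hA, hR⟩⟩
    · exact ⟨(∅, fun _ => ∅, ∅), fun h' => absurd h' hO⟩
  choose W hW using hex
  let S : ℕ → Finset ℕ := fun s => Nat.rec O0 (fun s O => O ∪ (W s O).1 ∪ (W s O).2.2) s
  have hS0 : S 0 = O0 := rfl
  have hS1 : ∀ s, S (s + 1) = S s ∪ (W s (S s)).1 ∪ (W s (S s)).2.2 := fun s => rfl
  have hinv : ∀ s, MI a u e κ w c q s (S s) := by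
    intro s
    induction s with
    | zero => rw [hS0]; exact hO0
    | succ s ih =>
      rw [hS1]
      exact mi_step h (f s) (g s) s q hq (B s) (S s) _ _ _ ih (hW s _ ih).1 (hW s _ ih).2
  exact ⟨q, S, fun s => (W s (S s)).1, fun s => (W s (S s)).2.2, fun s => (W s (S s)).2.1,
    hq, hS1, hinv, fun s => (hW s _ (hinv s)).1, fun s => (hW s _ (hinv s)).2⟩

end Pool.Agent.Helper52.FM
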